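import Pool.Agent.V11272.GR.Core

set_option autoImplicit false

namespace Pool.Agent.V11272.GR

universe u

variable {V : Type u}

theorem case0 (G : SimpleGraph V) (hns : ¬ StarLike G)
    (h : ∀ v x y, x ≠ v → ¬ G.Adj v x → y ≠ v → ¬ G.Adj v y → ¬ G.Adj x y) : Short G := by
  have sy : ∀ x y, G.Adj x y → G.Adj y x := fun x y h => h.symm
  have ir : ∀ x, ¬ G.Adj x x := fun x => G.loopless.irrefl x
  have tr : ∀ x y z, ¬ G.Adj x y → ¬ G.Adj y z → ¬ G.Adj x z := by
    intro x y z hxy hyz
    by_cases h1 : x = y
    · subst h1; exact hyz
    by_cases h2 : z = y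
    · subst h2; exact hxy
    exact h y x z h1 (fun e => hxy e.symm) h2 hyz
  -- parts
  have mdP : ∀ x, MD G {y | ¬ G.Adj x y} := by
    intro x
    apply MD.of_indep
    · intro y
      by_cases hy : G.Adj x y
      · exact Or.inr ⟨x, ir x, hy⟩
      · exact Or.inl hy
    · intro a ha b hb
      exact tr a x b (fun e => ha e.symm) hb
  have mdU : ∀ x, (∀ y, ¬ G.Adj x y → y = x) → MD G {x} := by
    intro x hx
    apply MD.of_indep
    · intro y
      by_cases hy : G.Adj x y
      · exact Or.inr ⟨x, rfl, hy⟩
      · exact Or.inl (hx y hy)
    · rintro a rfl b rfl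
      exact ir _
  have mdQ : ∀ x y x' y', G.Adj x y → ¬ G.Adj x x' → x' ≠ x → ¬ G.Adj y y' → y' ≠ y →
      MD G {x, y} := by
    intro x y x' y' hxy hx hx' hy hy'
    refine ⟨?_, ?_⟩
    · intro z
      by_cases hz : G.Adj x z
      · exact Or.inr ⟨x, by simp, hz⟩
      · by_cases hz' : G.Adj y z
        · exact Or.inr ⟨y, by simp, hz'⟩
        · exact absurd hxy (tr x z y hz (fun e => hz' e.symm))
    · rintro m (rfl | rfl)
      · refine ⟨y', Or.inr ?_, ?_⟩
        · by_contra hc
          exact tr m y' y hc (fun e => hy e.symm) hxy
        · rintro m' (rfl | rfl) hm'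
          · rfl
          · grind
      · refine ⟨x', Or.inr ?_, ?_⟩
        · by_contra hc
          exact tr m x' x hc (fun e => hx e.symm) hxy.symm
        · rintro m' (rfl | rfl) hm'
          · grind
          · rfl
  -- an edge
  unfold StarLike at hns
  push Not at hns
  obtain ⟨⟨a, b, hab⟩, hall⟩ := hns
  have nab : a ≠ b := hab.ne
  by_cases htri : ∃ d, G.Adj a d ∧ G.Adj b d
  · obtain ⟨d, had, hbd⟩ := htri
    -- key: two adjacent universal vertices
    have key1 : ∀ a b d, G.Adj a b → G.Adj a d → G.Adj b d →
        (∀ y, ¬ G.Adj a y → y = a) → Short G := by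
      intro a b d hab had hbd ha
      by_cases hb : ∀ y, ¬ G.Adj b y → y = b
      · have s1 : Step G b {a} {b} := by
          refine ⟨rfl, ?_, ?_, ?_⟩
          · simpa using hab.ne'
          · intro x hx; exact Or.inl hx
          · rintro x rfl; exact Or.inr hab.symm
        have s2 : Step G b {y | ¬ G.Adj d y} {b} := by
          refine ⟨rfl, ?_, ?_, ?_⟩
          · simpa using hbd.symm
          · intro x hx; exact Or.inl hx
          · intro x hx
            simp only [Set.mem_ofPred_eq] at hx
            right
            by_contra hc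
            exact tr b x d hc (fun e => hx e.symm) hbd
        have s3 : Step G a {y | ¬ G.Adj d y} {a} := by
          refine ⟨rfl, ?_, ?_, ?_⟩
          · simpa using had.symm
          · intro x hx; exact Or.inl hx
          · intro x hx
            simp only [Set.mem_ofPred_eq] at hx
            right
            by_contra hc
            exact tr a x d hc (fun e => hx e.symm) had
        exact short3 (mdU a ha) (mdU b hb) (mdP d) s1.ra s2.ra' s3.ra
      · by_cases hd : ∀ y, ¬ G.Adj d y → y = d
        · have s1 : Step G d {a} {d} := by
            refine ⟨rfl, ?_, ?_, ?_⟩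
            · simpa using had.ne'
            · intro x hx; exact Or.inl hx
            · rintro x rfl; exact Or.inr had.symm
          have s2 : Step G d {y | ¬ G.Adj b y} {d} := by
            refine ⟨rfl, ?_, ?_, ?_⟩
            · simpa using hbd
            · intro x hx; exact Or.inl hx
            · intro x hx
              simp only [Set.mem_ofPred_eq] at hx
              right
              by_contra hc
              exact tr d x b hc (fun e => hx e.symm) hbd.symm
          have s3 : Step G a {y | ¬ G.Adj b y} {a} := by
            refine ⟨rfl, ?_, ?_, ?_⟩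
            · simpa using hab.symm
            · intro x hx; exact Or.inl hx
            · intro x hx
              simp only [Set.mem_ofPred_eq] at hx
              right
              by_contra hc
              exact tr a x b hc (fun e => hx e.symm) hab
          exact short3 (mdU a ha) (mdU d hd) (mdP b) s1.ra s2.ra' s3.ra
        · push Not at hb hd
          obtain ⟨b', hb1, hb2⟩ := hb
          obtain ⟨d', hd1, hd2⟩ := hd
          have m2 := mdQ b d b' d' hbd hb1 hb2 hd1 hd2
          have s1 : Step G a {b, d} {a} := by
            refine ⟨rfl, ?_, ?_, ?_⟩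
            · have := hab.ne; have := had.ne; simp; tauto
            · intro x hx; exact Or.inl hx
            · rintro x (rfl | rfl)
              · exact Or.inr hab
              · exact Or.inr had
          have s2 : Step G d {y | ¬ G.Adj b y} {b, d} := by
            refine ⟨by simp, ?_, ?_, ?_⟩
            · simpa using hbd
            · rintro x (rfl | rfl)
              · right; exact ir _
              · left; rfl
            · intro x hx
              simp only [Set.mem_ofPred_eq] at hx
              right
              by_contra hc
              exact tr d x b hc (fun e => hx e.symm) hbd.symm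
          have s3 : Step G a {y | ¬ G.Adj b y} {a} := by
            refine ⟨rfl, ?_, ?_, ?_⟩
            · simpa using hab.symm
            · intro x hx; exact Or.inl hx
            · intro x hx
              simp only [Set.mem_ofPred_eq] at hx
              right
              by_contra hc
              exact tr a x b hc (fun e => hx e.symm) hab
          exact short3 (mdU a ha) m2 (mdP b) s1.ra' s2.ra' s3.ra
    by_cases ha : ∀ y, ¬ G.Adj a y → y = a
    · exact key1 a b d hab had hbd ha
    by_cases hb : ∀ y, ¬ G.Adj b y → y = b
    · exact key1 b a d hab.symm hbd had hb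
    by_cases hd : ∀ y, ¬ G.Adj d y → y = d
    · exact key1 d a b had.symm hbd.symm hab hd
    push Not at ha hb hd
    obtain ⟨a', ha1, ha2⟩ := ha
    obtain ⟨b', hb1, hb2⟩ := hb
    obtain ⟨d', hd1, hd2⟩ := hd
    have m1 := mdQ a b a' b' hab ha1 ha2 hb1 hb2
    have m2 := mdQ b d b' d' hbd hb1 hb2 hd1 hd2
    have m3 := mdQ a d a' d' had ha1 ha2 hd1 hd2
    have e1 := hab.ne
    have e2 := had.ne
    have e3 := hbd.ne
    have s1 : Step G d {a, b} {b, d} := by
      refine ⟨by simp, by simp; tauto, ?_, ?_⟩
      · rintro x (rfl | rfl) <;> simp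
      · rintro x (rfl | rfl)
        · exact Or.inr had.symm
        · simp
    have s2 : Step G a {b, d} {a, d} := by
      refine ⟨by simp, by simp; tauto, ?_, ?_⟩
      · rintro x (rfl | rfl) <;> simp
      · rintro x (rfl | rfl)
        · exact Or.inr hab
        · simp
    have s3 : Step G b {a, d} {a, b} := by
      refine ⟨by simp, by simp; tauto, ?_, ?_⟩
      · rintro x (rfl | rfl) <;> simp
      · rintro x (rfl | rfl)
        · simp
        · exact Or.inr hbd
    exact short3 m1 m2 m3 s1.ra s2.ra s3.ra
  · push Not at htri
    -- bipartite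
    obtain ⟨x, y, hxy, hxa, hya⟩ := hall a
    have ha' : ∃ a', ¬ G.Adj a a' ∧ a' ≠ a := by
      by_cases hax : G.Adj a x
      · refine ⟨y, fun hay => ?_, hya⟩
        have := htri x hax
        have := htri y hay
        exact tr x b y (fun e => ‹¬ G.Adj b x› e.symm) ‹_› hxy
      · exact ⟨x, hax, hxa⟩
    obtain ⟨x, y, hxy, hxb, hyb⟩ := hall b
    have hb' : ∃ b', ¬ G.Adj b b' ∧ b' ≠ b := by
      by_cases hbx : G.Adj b x
      · refine ⟨y, fun hby => ?_, hyb⟩
        have h1 : ¬ G.Adj a x := fun e => htri x e hbx
        have h2 : ¬ G.Adj a y := fun e => htri y e hby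
        exact tr x a y (fun e => h1 e.symm) h2 hxy
      · exact ⟨x, hbx, hxb⟩
    obtain ⟨a', ha1, ha2⟩ := ha'
    obtain ⟨b', hb1, hb2⟩ := hb'
    have haB : G.Adj a' b := by
      by_contra hc
      exact tr a a' b ha1 hc hab
    have m1 := mdQ a b a' b' hab ha1 ha2 hb1 hb2
    have m2 := mdQ a' b a b' haB (fun e => ha1 e.symm) ha2.symm hb1 hb2
    have q1 : ∀ x, ¬ G.Adj a x → G.Adj b x := by
      intro x hx
      by_contra hc
      exact tr a x b hx (fun e => hc e.symm) hab
    have q2 : ∀ x, ¬ G.Adj b x → G.Adj a x := by
      intro x hx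
      by_contra hc
      exact hx (q1 x hc)
    have q3 : ∀ x, ¬ G.Adj b x → G.Adj a' x := by
      intro x hx
      by_contra hc
      exact tr a' x b hc (fun e => hx e.symm) haB
    have s1 : Step G b {y | ¬ G.Adj a y} {a, b} := by
      refine ⟨by simp, by simpa using hab, ?_, ?_⟩
      · rintro x (rfl | rfl)
        · right; exact ir _
        · left; rfl
      · intro x hx; exact Or.inr (q1 x hx)
    have s2 : Step G a {y | ¬ G.Adj b y} {a, b} := by
      refine ⟨by simp, by simpa using hab.symm, ?_, ?_⟩
      · rintro x (rfl | rfl)
        · left; rfl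
        · right; exact ir _
      · intro x hx; exact Or.inr (q2 x hx)
    have s3 : Step G a' {y | ¬ G.Adj b y} {a', b} := by
      refine ⟨by simp, by simpa using haB.symm, ?_, ?_⟩
      · rintro x (rfl | rfl)
        · left; rfl
        · right; exact ir _
      · intro x hx; exact Or.inr (q3 x hx)
    have s4 : Step G b {y | ¬ G.Adj a y} {a', b} := by
      refine ⟨by simp, by simpa using hab, ?_, ?_⟩
      · rintro x (rfl | rfl)
        · right; exact ha1
        · left; rfl
      · intro x hx; exact Or.inr (q1 x hx)
    refine short4 (mdP a) m1 (mdP b) m2 s1.ra s2.ra' s3.ra s4.ra' ?_ ?_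
    · intro he
      have : a ∈ {y | ¬ G.Adj a y} := ir a
      rw [he] at this
      exact this hab.symm
    · intro he
      have : a ∈ ({a, b} : Set V) := by simp
      rw [he] at this
      simp only [Set.mem_insert_iff, Set.mem_singleton_iff] at this
      rcases this with rfl | rfl
      · exact ha2 rfl
      · exact nab rfl

end Pool.Agent.V11272.GR
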