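import Pool.Agent.V11272.GR.Core

set_option autoImplicit false

namespace Pool.Agent.V11272.GR

universe u

variable {V : Type u}

structure Frame (G : SimpleGraph V) (v c : V) : Prop where
  ne : v ≠ c
  na : ¬ G.Adj v c
  lf : ∃ l, G.Adj c l ∧ ¬ G.Adj v l
  ctr : ∀ x y, x ≠ v → ¬ G.Adj v x → y ≠ v → ¬ G.Adj v y → G.Adj x y → x = c ∨ y = c

theorem Frame.twin {G : SimpleGraph V} (h : NS G) {v c : V} (F : Frame G v c) {t : V}
    (h1 : ¬ G.Adj v t) (h2 : t ≠ c) (h3 : ¬ G.Adj c t) (x : V) : G.Adj t x ↔ G.Adj v x := by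
  by_cases htv : t = v
  · subst htv; rfl
  obtain ⟨l, hl1, hl2⟩ := F.lf
  have key : ∀ x, G.Adj t x → G.Adj v x := by
    intro x hx
    by_contra hc
    have hxv : x ≠ v := by rintro rfl; exact h1 hx.symm
    rcases F.ctr t x htv h1 hxv hc hx with e | e
    · exact h2 e
    · subst e; exact h3 hx.symm
  refine ⟨key x, fun hx => ?_⟩
  by_contra hc
  have htl : ¬ G.Adj t l := fun e => hl2 (key l e)
  have htc : ¬ G.Adj t c := fun e => h3 e.symm
  have hlt : l ≠ t := by rintro rfl; exact h3 hl1
  have hxt : x ≠ t := by rintro rfl; exact h1 hx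
  have := h.no2 (v := t) (a := c) (b := l) (c := v) (d := x) (Ne.symm h2) htc hlt htl
    (Ne.symm htv) (fun e => h1 e.symm) hxt hc hl1 hx
  rcases this with e | e | e | e
  · exact F.ne e.symm
  · subst e; exact F.na hx
  · subst e; exact F.na hl1.symm
  · subst e; exact hl2 hx

theorem Frame.indL {G : SimpleGraph V} {v c : V} (F : Frame G v c) {l l' : V}
    (h1 : G.Adj c l) (h2 : ¬ G.Adj v l) (h3 : G.Adj c l') (h4 : ¬ G.Adj v l') : ¬ G.Adj l l' := by
  intro e
  have e1 : l ≠ v := by rintro rfl; exact F.na h1.symm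
  have e2 : l' ≠ v := by rintro rfl; exact F.na h3.symm
  rcases F.ctr l l' e1 h2 e2 h4 e with r | r
  · exact h1.ne r.symm
  · exact h3.ne r.symm

theorem case1 (G : SimpleGraph V) (hns : ¬ StarLike G) (h : NS G) {v c : V} (F : Frame G v c)
    (hW : ∀ x, G.Adj v x → G.Adj c x) : Short G := by
  have ir : ∀ x, ¬ G.Adj x x := fun x => G.loopless.irrefl x
  have sy : ∀ x y, G.Adj x y → G.Adj y x := fun x y h => h.symm
  have tw : ∀ t, ¬ G.Adj v t → t ≠ c → ¬ G.Adj c t → ∀ x, G.Adj t x ↔ G.Adj v x :=
    fun t a b d x => F.twin h a b d x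
  have iL : ∀ l l', G.Adj c l → ¬ G.Adj v l → G.Adj c l' → ¬ G.Adj v l' → ¬ G.Adj l l' :=
    fun l l' a b d e => F.indL a b d e
  obtain ⟨l0, hl1, hl2⟩ := F.lf
  have hvc := F.ne
  have hna := F.na
  have hcv : ¬ G.Adj c v := fun e => hna e.symm
  -- M1 = T ∪ {c}
  let M1 : Set V := {x | x = c ∨ (¬ G.Adj v x ∧ x ≠ c ∧ ¬ G.Adj c x)}
  let M2 : Set V := {x | (G.Adj c x ∧ ¬ G.Adj v x) ∨ (¬ G.Adj v x ∧ x ≠ c ∧ ¬ G.Adj c x)}
  have mM1 : ∀ x, x ∈ M1 ↔ x = c ∨ (¬ G.Adj v x ∧ x ≠ c ∧ ¬ G.Adj c x) := fun x => Iff.rfl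
  have mM2 : ∀ x, x ∈ M2 ↔ (G.Adj c x ∧ ¬ G.Adj v x) ∨ (¬ G.Adj v x ∧ x ≠ c ∧ ¬ G.Adj c x) :=
    fun x => Iff.rfl
  have d1 : MD G M1 := by
    apply MD.of_indep
    · intro x
      by_cases hx : G.Adj v x
      · exact Or.inr ⟨v, Or.inr ⟨ir v, hvc, hcv⟩, hx⟩
      · by_cases hx2 : G.Adj c x
        · exact Or.inr ⟨c, Or.inl rfl, hx2⟩
        · by_cases hx3 : x = c
          · exact Or.inl (Or.inl hx3)
          · exact Or.inl (Or.inr ⟨hx, hx3, hx2⟩)
    · rintro x (rfl | ⟨a1, a2, a3⟩) y (rfl | ⟨b1, b2, b3⟩)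
      · exact ir _
      · exact b3
      · exact fun e => a3 e.symm
      · rw [tw x a1 a2 a3 y]; exact b1
  have d2 : MD G M2 := by
    apply MD.of_indep
    · intro x
      by_cases hx : G.Adj v x
      · exact Or.inr ⟨v, Or.inr ⟨ir v, hvc, hcv⟩, hx⟩
      · by_cases hx2 : G.Adj c x
        · exact Or.inl (Or.inl ⟨hx2, hx⟩)
        · by_cases hx3 : x = c
          · subst hx3
            exact Or.inr ⟨l0, Or.inl ⟨hl1, hl2⟩, hl1.symm⟩
          · exact Or.inl (Or.inr ⟨hx, hx3, hx2⟩)
    · rintro x (⟨a1, a2⟩ | ⟨a1, a2, a3⟩) y (⟨b1, b2⟩ | ⟨b1, b2, b3⟩)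
      · exact iL x y a1 a2 b1 b2
      · intro e
        exact a2 ((tw y b1 b2 b3 x).1 e.symm)
      · intro e
        exact b2 ((tw x a1 a2 a3 y).1 e)
      · rw [tw x a1 a2 a3 y]; exact b1
  have s12 : Step G c M2 M1 := by
    refine ⟨Or.inl rfl, ?_, ?_, ?_⟩
    · rintro (⟨a, _⟩ | ⟨_, a, _⟩)
      · exact ir _ a
      · exact a rfl
    · rintro x (rfl | hx)
      · exact Or.inl rfl
      · exact Or.inr (Or.inr hx)
    · rintro x (⟨a1, _⟩ | hx)
      · exact Or.inr a1
      · exact Or.inl (Or.inr hx)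
  -- a vertex of W exists
  have hWne : ∃ w, G.Adj v w := by
    by_contra hc
    push Not at hc
    apply hns
    right
    refine ⟨c, fun x y hxy => ?_⟩
    have hx : x ≠ v := by rintro rfl; exact hc y hxy
    have hy : y ≠ v := by rintro rfl; exact hc x hxy.symm
    exact F.ctr x y hx (hc x) hy (hc y) hxy
  -- w dominates T, c
  have wT : ∀ w, G.Adj v w → ∀ x, x ∈ M1 → G.Adj w x := by
    rintro w hw x (rfl | ⟨a1, a2, a3⟩)
    · exact (hW w hw).symm
    · exact ((tw x a1 a2 a3 w).2 hw).symm
  have wM1 : ∀ w, G.Adj v w → w ∉ M1 := by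
    rintro w hw (rfl | ⟨a1, _⟩)
    · exact hna hw
    · exact a1 hw
  have wM2 : ∀ w, G.Adj v w → w ∉ M2 := by
    rintro w hw (⟨_, a1⟩ | ⟨a1, _⟩)
    · exact a1 hw
    · exact a1 hw
  by_cases hu : ∃ w, G.Adj v w ∧ ∀ x, x = w ∨ G.Adj w x
  · obtain ⟨w, hw, hwall⟩ := hu
    have d3 : MD G ({w} : Set V) := by
      apply MD.of_indep
      · intro x
        rcases hwall x with e | e
        · exact Or.inl e
        · exact Or.inr ⟨w, rfl, e⟩
      · rintro x rfl y rfl; exact ir _
    have s1 : Step G w M1 {w} := by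
      refine ⟨rfl, wM1 w hw, fun x hx => Or.inl hx, fun x hx => Or.inr (wT w hw x hx)⟩
    have s2 : Step G w M2 {w} := by
      refine ⟨rfl, wM2 w hw, fun x hx => Or.inl hx, fun x hx => ?_⟩
      rcases hwall x with e | e
      · exact Or.inl e
      · exact Or.inr e
    exact short3 d1 d2 d3 s12.ra' s2.ra s1.ra'
  · push Not at hu
    have cw : ∀ w, G.Adj v w → c ≠ w := fun w hw e => hna (e ▸ hw)
    have dcw : ∀ w, G.Adj v w → MD G ({c, w} : Set V) := by
      intro w hw
      obtain ⟨z, hz1, hz2⟩ := hu w hw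
      refine ⟨?_, ?_⟩
      · intro x
        by_cases hx : G.Adj c x
        · exact Or.inr ⟨c, by simp, hx⟩
        · by_cases hx2 : x = c
          · subst hx2; exact Or.inl (by simp)
          · by_cases hx3 : G.Adj v x
            · exact absurd (hW x hx3) hx
            · exact Or.inr ⟨w, by simp, wT w hw x (Or.inr ⟨hx3, hx2, hx⟩)⟩
      · rintro m (rfl | rfl)
        · refine ⟨z, Or.inr ?_, ?_⟩
          · by_contra hc
            by_cases hz3 : z = m
            · subst hz3; exact hz2 (hW w hw).symm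
            · by_cases hz4 : G.Adj v z
              · exact hc (hW z hz4)
              · exact hz2 (wT w hw z (Or.inr ⟨hz4, hz3, hc⟩))
          · rintro m' (rfl | rfl) hm'
            · rfl
            · rcases hm' with e | e
              · exact absurd e hz1
              · exact absurd e hz2
        · refine ⟨v, Or.inr hw.symm, ?_⟩
          rintro m' (rfl | rfl) hm'
          · rcases hm' with e | e
            · exact absurd e hvc
            · exact absurd e hcv
          · rfl
    have scw : ∀ w, G.Adj v w → Step G w M1 {c, w} := by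
      intro w hw
      refine ⟨by simp, wM1 w hw, ?_, fun x hx => Or.inr (wT w hw x hx)⟩
      rintro x (rfl | rfl)
      · exact Or.inr (Or.inl rfl)
      · exact Or.inl rfl
    by_cases hadj : ∃ w w', G.Adj v w ∧ G.Adj v w' ∧ G.Adj w w'
    · obtain ⟨w, w', hw, hw', hww⟩ := hadj
      have s3 : Step G w' {c, w} {c, w'} := by
        refine ⟨by simp, ?_, ?_, ?_⟩
        · rintro (e | e)
          · exact cw w' hw' e.symm
          · exact hww.ne e.symm
        · rintro x (rfl | rfl) <;> simp
        · rintro x (rfl | rfl)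
          · exact Or.inl (by simp)
          · exact Or.inr hww.symm
      exact short3 d1 (dcw w hw) (dcw w' hw') (scw w hw).ra s3.ra (scw w' hw').ra'
    · push Not at hadj
      obtain ⟨w, hw⟩ := hWne
      by_cases hone : ∃ w', G.Adj v w' ∧ w' ≠ w
      · obtain ⟨w', hw', hne⟩ := hone
        let M3 : Set V := {x | G.Adj v x ∨ ((G.Adj c x ∧ ¬ G.Adj v x) ∧ ∀ w, G.Adj v w → ¬ G.Adj w x)}
        have d3 : MD G M3 := by
          apply MD.of_indep
          · intro x
            by_cases hx : G.Adj v x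
            · exact Or.inl (Or.inl hx)
            · by_cases hx2 : G.Adj c x
              · by_cases hx3 : ∃ w, G.Adj v w ∧ G.Adj w x
                · obtain ⟨w, h1, h2⟩ := hx3
                  exact Or.inr ⟨w, Or.inl h1, h2⟩
                · push Not at hx3
                  exact Or.inl (Or.inr ⟨⟨hx2, hx⟩, hx3⟩)
              · by_cases hx3 : x = c
                · subst hx3
                  exact Or.inr ⟨w, Or.inl hw, (hW w hw).symm⟩
                · exact Or.inr ⟨w, Or.inl hw, wT w hw x (Or.inr ⟨hx, hx3, hx2⟩)⟩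
          · rintro x (hx | ⟨⟨a1, a2⟩, a3⟩) y (hy | ⟨⟨b1, b2⟩, b3⟩)
            · exact hadj x y hx hy
            · exact b3 x hx
            · exact fun e => a3 y hy e.symm
            · exact iL x y a1 a2 b1 b2
        have s3 : ∀ w, G.Adj v w → Step G c M3 {c, w} := by
          intro w hw
          refine ⟨by simp, ?_, ?_, ?_⟩
          · rintro (e | ⟨⟨e, _⟩, _⟩)
            · exact hna e
            · exact ir _ e
          · rintro x (rfl | rfl)
            · exact Or.inl rfl
            · exact Or.inr (Or.inl hw)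
          · rintro x (hx | ⟨⟨a1, _⟩, _⟩)
            · exact Or.inr (hW x hx)
            · exact Or.inr a1
        refine short4 d1 (dcw w hw) d3 (dcw w' hw') (scw w hw).ra (s3 w hw).ra' (s3 w' hw').ra
          (scw w' hw').ra' ?_ ?_
        · intro e
          have : c ∈ M1 := Or.inl rfl
          rw [e] at this
          rcases this with r | ⟨⟨r, _⟩, _⟩
          · exact hna r
          · exact ir _ r
        · intro e
          have : w ∈ ({c, w} : Set V) := by simp
          rw [e] at this
          rcases this with r | r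
          · exact cw w hw r.symm
          · exact hne r.symm
      · push Not at hone
        let M3 : Set V := {x | x = w ∨ ((G.Adj c x ∧ ¬ G.Adj v x) ∧ ¬ G.Adj w x)}
        have d3 : MD G M3 := by
          apply MD.of_indep
          · intro x
            by_cases hx : G.Adj v x
            · exact Or.inl (Or.inl (hone x hx))
            · by_cases hx2 : G.Adj c x
              · by_cases hx3 : G.Adj w x
                · exact Or.inr ⟨w, Or.inl rfl, hx3⟩
                · exact Or.inl (Or.inr ⟨⟨hx2, hx⟩, hx3⟩)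
              · by_cases hx3 : x = c
                · subst hx3
                  exact Or.inr ⟨w, Or.inl rfl, (hW w hw).symm⟩
                · exact Or.inr ⟨w, Or.inl rfl, wT w hw x (Or.inr ⟨hx, hx3, hx2⟩)⟩
          · rintro x (rfl | ⟨⟨a1, a2⟩, a3⟩) y (rfl | ⟨⟨b1, b2⟩, b3⟩)
            · exact ir _
            · exact b3
            · exact fun e => a3 e.symm
            · exact iL x y a1 a2 b1 b2
        have s3 : Step G c M3 {c, w} := by
          refine ⟨by simp, ?_, ?_, ?_⟩
          · rintro (e | ⟨⟨e, _⟩, _⟩)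
            · exact cw w hw e
            · exact ir _ e
          · rintro x (rfl | rfl)
            · exact Or.inl rfl
            · exact Or.inr (Or.inl rfl)
          · rintro x (rfl | ⟨⟨a1, _⟩, _⟩)
            · exact Or.inl (by simp)
            · exact Or.inr a1
        have s4 : Step G w M2 M3 := by
          refine ⟨Or.inl rfl, wM2 w hw, ?_, ?_⟩
          · rintro x (rfl | ⟨a, _⟩)
            · exact Or.inl rfl
            · exact Or.inr (Or.inl a)
          · rintro x (a | a)
            · by_cases hx : G.Adj w x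
              · exact Or.inr hx
              · exact Or.inl (Or.inr ⟨a, hx⟩)
            · exact Or.inr (wT w hw x (Or.inr a))
        refine short4 d2 d3 (dcw w hw) d1 s4.ra s3.ra (scw w hw).ra' s12.ra' ?_ ?_
        · intro e
          have : c ∈ ({c, w} : Set V) := by simp
          rw [← e] at this
          rcases this with ⟨r, _⟩ | ⟨_, r, _⟩
          · exact ir _ r
          · exact r rfl
        · intro e
          have : w ∈ M3 := Or.inl rfl
          rw [e] at this
          exact wM1 w hw this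

end Pool.Agent.V11272.GR
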