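import Pool.Agent.V11272.GR.Case1

set_option autoImplicit false

namespace Pool.Agent.V11272.GR

universe u

variable {V : Type u}

theorem case2 [Finite V] (G : SimpleGraph V) (h : NS G) {v c : V} (F : Frame G v c)
    (hT : ∀ x, ¬ G.Adj v x → x ≠ c → ¬ G.Adj c x → x = v)
    {l1 l2 w0 : V} (hl1 : G.Adj c l1) (hl1' : ¬ G.Adj v l1) (hl2 : G.Adj c l2)
    (hl2' : ¬ G.Adj v l2) (hne : l1 ≠ l2) (hw0 : G.Adj v w0) (hw0c : ¬ G.Adj c w0) : Short G := by
  have ir : ∀ x, ¬ G.Adj x x := fun x => G.loopless.irrefl x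
  have sy : ∀ x y, G.Adj x y → G.Adj y x := fun x y h => h.symm
  have iL : ∀ l l', G.Adj c l → ¬ G.Adj v l → G.Adj c l' → ¬ G.Adj v l' → ¬ G.Adj l l' :=
    fun l l' a b d e => F.indL a b d e
  have hvc := F.ne
  have hna := F.na
  have hcv : ¬ G.Adj c v := fun e => hna e.symm
  have lv : ∀ l, G.Adj c l → l ≠ v := by rintro l hl rfl; exact hcv hl
  have lc : ∀ l, G.Adj c l → l ≠ c := by rintro l hl rfl; exact ir _ hl
  have wv : ∀ w, G.Adj v w → w ≠ v := by rintro l hl rfl; exact ir _ hl
  have wc : ∀ w, G.Adj v w → w ≠ c := by rintro l hl rfl; exact hna hl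
  have part : ∀ x, x = v ∨ x = c ∨ G.Adj v x ∨ (G.Adj c x ∧ ¬ G.Adj v x) := by
    intro x
    by_cases h1 : G.Adj v x
    · exact Or.inr (Or.inr (Or.inl h1))
    by_cases h2 : G.Adj c x
    · exact Or.inr (Or.inr (Or.inr ⟨h2, h1⟩))
    by_cases h3 : x = c
    · exact Or.inr (Or.inl h3)
    exact Or.inl (hT x h1 h3 h2)
  -- A is independent
  have iA : ∀ a a', G.Adj v a → ¬ G.Adj c a → G.Adj v a' → ¬ G.Adj c a' → ¬ G.Adj a a' := by
    intro a a' h1 h2 h3 h4 e
    exact h.no3 (v := c) (a := v) (b := a) (c := a') hvc hcv (wc a h1) h2 (wc a' h3) h4 h1 e h3.symm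
  -- basic sets
  have d1 : MD G ({v, c} : Set V) := by
    apply MD.of_indep
    · intro x
      rcases part x with e | e | e | e
      · subst e; exact Or.inl (by simp)
      · subst e; exact Or.inl (by simp)
      · exact Or.inr ⟨v, by simp, e⟩
      · exact Or.inr ⟨c, by simp, e.1⟩
    · rintro x (rfl | rfl) y (rfl | rfl)
      · exact ir _
      · exact hna
      · exact hcv
      · exact ir _
  let M2 : Set V := {x | x = v ∨ (G.Adj c x ∧ ¬ G.Adj v x)}
  let M5 : Set V := {x | x = c ∨ (G.Adj v x ∧ ¬ G.Adj c x)}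
  have d2 : MD G M2 := by
    apply MD.of_indep
    · intro x
      rcases part x with e | e | e | e
      · exact Or.inl (Or.inl e)
      · subst e; exact Or.inr ⟨l1, Or.inr ⟨hl1, hl1'⟩, hl1.symm⟩
      · exact Or.inr ⟨v, Or.inl rfl, e⟩
      · exact Or.inl (Or.inr e)
    · rintro x (rfl | ⟨a1, a2⟩) y (rfl | ⟨b1, b2⟩)
      · exact ir _
      · exact b2
      · exact fun e => a2 e.symm
      · exact iL x y a1 a2 b1 b2
  have d5 : MD G M5 := by
    apply MD.of_indep
    · intro x
      rcases part x with e | e | e | e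
      · subst e; exact Or.inr ⟨w0, Or.inr ⟨hw0, hw0c⟩, hw0.symm⟩
      · exact Or.inl (Or.inl e)
      · by_cases h2 : G.Adj c x
        · exact Or.inr ⟨c, Or.inl rfl, h2⟩
        · exact Or.inl (Or.inr ⟨e, h2⟩)
      · exact Or.inr ⟨c, Or.inl rfl, e.1⟩
    · rintro x (rfl | ⟨a1, a2⟩) y (rfl | ⟨b1, b2⟩)
      · exact ir _
      · exact b2
      · exact fun e => a2 e.symm
      · exact iA x y a1 a2 b1 b2
  have s15 : Step G v M5 {v, c} := by
    refine ⟨by simp, ?_, ?_, ?_⟩
    · rintro (e | ⟨e, _⟩)
      · exact hvc e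
      · exact ir _ e
    · rintro x (rfl | rfl)
      · exact Or.inl rfl
      · exact Or.inr (Or.inl rfl)
    · rintro x (rfl | ⟨a1, _⟩)
      · exact Or.inl (by simp)
      · exact Or.inr a1
  have s12 : Step G c M2 {v, c} := by
    refine ⟨by simp, ?_, ?_, ?_⟩
    · rintro (e | ⟨e, _⟩)
      · exact hvc e.symm
      · exact ir _ e
    · rintro x (rfl | rfl)
      · exact Or.inr (Or.inl rfl)
      · exact Or.inl rfl
    · rintro x (rfl | ⟨a1, _⟩)
      · exact Or.inl (by simp)
      · exact Or.inr a1
  have n25 : M2 ≠ M5 := by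
    intro e
    have : c ∈ M5 := Or.inl rfl
    rw [← e] at this
    rcases this with e | ⟨e, _⟩
    · exact hvc e.symm
    · exact ir _ e
  have vM5 : v ∉ M5 := s15.2.1
  have cM2 : c ∉ M2 := s12.2.1
  -- Lemma K
  have K : ∀ w l, G.Adj v w → ¬ G.Adj c w → (∀ l, G.Adj c l → ¬ G.Adj v l → G.Adj w l) →
      G.Adj c l → ¬ G.Adj v l → (∀ a, G.Adj v a → ¬ G.Adj c a → a = w ∨ G.Adj l a) →
      (∀ x, G.Adj v x → x = w ∨ G.Adj w x ∨ G.Adj l x) → Short G := by
    intro w l k1 k2 k3 k4 k5 k6 k7
    have hwl : w ≠ l := by rintro rfl; exact k2 k4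
    have dK : MD G ({w, l} : Set V) := by
      refine ⟨?_, ?_⟩
      · intro x
        rcases part x with e | e | e | e
        · subst e; exact Or.inr ⟨w, by simp, k1.symm⟩
        · subst e; exact Or.inr ⟨l, by simp, k4.symm⟩
        · rcases k7 x e with e | e | e
          · subst e; exact Or.inl (by simp)
          · exact Or.inr ⟨w, by simp, e⟩
          · exact Or.inr ⟨l, by simp, e⟩
        · exact Or.inr ⟨w, by simp, k3 x e.1 e.2⟩
      · rintro m (rfl | rfl)
        · refine ⟨v, Or.inr k1.symm, ?_⟩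
          rintro m' (rfl | rfl) hm'
          · rfl
          · rcases hm' with e | e
            · exact absurd e.symm (lv _ k4)
            · exact absurd e.symm k5
        · refine ⟨c, Or.inr k4.symm, ?_⟩
          rintro m' (rfl | rfl) hm'
          · rcases hm' with e | e
            · exact absurd e.symm (wc _ k1)
            · exact absurd e.symm k2
          · rfl
    have s2 : Step G w M2 {w, l} := by
      refine ⟨by simp, ?_, ?_, ?_⟩
      · rintro (e | ⟨e, _⟩)
        · exact wv w k1 e
        · exact k2 e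
      · rintro x (rfl | rfl)
        · exact Or.inl rfl
        · exact Or.inr (Or.inr ⟨k4, k5⟩)
      · rintro x (rfl | ⟨a1, a2⟩)
        · exact Or.inr k1.symm
        · exact Or.inr (k3 x a1 a2)
    have s5 : Step G l M5 {w, l} := by
      refine ⟨by simp, ?_, ?_, ?_⟩
      · rintro (e | ⟨e, _⟩)
        · exact lc l k4 e
        · exact k5 e
      · rintro x (rfl | rfl)
        · exact Or.inr (Or.inr ⟨k1, k2⟩)
        · exact Or.inl rfl
      · rintro x (rfl | ⟨a1, a2⟩)
        · exact Or.inr k4.symm
        · rcases k6 x a1 a2 with e | e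
          · subst e; exact Or.inl (by simp)
          · exact Or.inr e
    refine short4 d1 d2 dK d5 s12.ra' s2.ra s5.ra' s15.ra ?_ n25
    intro e
    have : v ∈ ({v, c} : Set V) := by simp
    rw [e] at this
    rcases this with r | r
    · exact wv w k1 r.symm
    · exact lv l k4 r.symm
  -- property (P)
  have P : ∀ w w' l, G.Adj v w → G.Adj v w' → w ≠ w' → G.Adj c l → ¬ G.Adj v l →
      ¬ G.Adj l w → ¬ G.Adj l w' → (∀ l', G.Adj c l' → ¬ G.Adj v l' → ¬ G.Adj w l') := by
    intro w w' l a1 a2 a3 b1 b2 c1 c2 l' e1 e2 e3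
    have hll : l' ≠ l := by rintro rfl; exact c1 e3.symm
    have hlw : w ≠ l := by rintro rfl; exact b2 a1
    have hlw' : w' ≠ l := by rintro rfl; exact b2 a2
    have := h.no2 (v := l) (a := v) (b := w') (c := w) (d := l') (Ne.symm (lv l b1))
      (fun e => b2 e.symm) hlw' c2 hlw c1 hll (iL l l' b1 b2 e1 e2) a2 e3
    rcases this with r | r | r | r
    · exact wv w a1 r.symm
    · exact lv l' e1 r.symm
    · exact a3 r.symm
    · subst r; exact e2 a2
  have P2 : ∀ w w' l, G.Adj v w → G.Adj v w' → G.Adj c l → ¬ G.Adj v l →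
      ¬ G.Adj l w → ¬ G.Adj l w' → ¬ G.Adj w w' := by
    intro w w' l a1 a2 b1 b2 c1 c2 e
    have hlw : w ≠ l := by rintro rfl; exact b2 a1
    have hlw' : w' ≠ l := by rintro rfl; exact b2 a2
    exact h.no3 (v := l) (a := v) (b := w) (c := w') (Ne.symm (lv l b1)) (fun e => b2 e.symm)
      hlw c1 hlw' c2 a1 e a2.symm
  by_cases hfree : ∃ u0, G.Adj v u0 ∧ ∀ l, G.Adj c l → ¬ G.Adj v l → ¬ G.Adj u0 l
  · -- sub-case (a)
    obtain ⟨u0, hu0, hu0f⟩ := hfree
    have dich : ∀ w, G.Adj v w → (∀ l, G.Adj c l → ¬ G.Adj v l → G.Adj w l) ∨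
        (∀ l, G.Adj c l → ¬ G.Adj v l → ¬ G.Adj w l) := by
      intro w hw
      by_cases hf : ∀ l, G.Adj c l → ¬ G.Adj v l → G.Adj w l
      · exact Or.inl hf
      · push Not at hf
        obtain ⟨l, e1, e2, e3⟩ := hf
        by_cases hwu : w = u0
        · subst hwu; exact Or.inr hu0f
        · exact Or.inr (P w u0 l hw hu0 hwu e1 e2 (fun e => e3 e.symm)
            (fun e => hu0f l e1 e2 e.symm))
    -- B independent
    have iB : ∀ u u', G.Adj v u → G.Adj v u' → ¬ G.Adj u l1 → ¬ G.Adj u' l1 → ¬ G.Adj u u' :=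
      fun u u' a1 a2 a3 a4 => P2 u u' l1 a1 a2 hl1 hl1' (fun e => a3 e.symm) (fun e => a4 e.symm)
    have full_of : ∀ w, G.Adj v w → G.Adj w l1 → ∀ l, G.Adj c l → ¬ G.Adj v l → G.Adj w l := by
      intro w hw e
      rcases dich w hw with r | r
      · exact r
      · exact absurd e (r l1 hl1 hl1')
    have free_of : ∀ w, G.Adj v w → ¬ G.Adj w l1 → ∀ l, G.Adj c l → ¬ G.Adj v l → ¬ G.Adj w l := by
      intro w hw e
      rcases dich w hw with r | r
      · exact absurd (r l1 hl1 hl1') e
      · exact r
    let M4 : Set V := {x | (G.Adj c x ∧ ¬ G.Adj v x) ∨ (G.Adj v x ∧ ¬ G.Adj x l1)}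
    have d4 : MD G M4 := by
      apply MD.of_indep
      · intro x
        rcases part x with e | e | e | e
        · subst e; exact Or.inr ⟨u0, Or.inr ⟨hu0, hu0f l1 hl1 hl1'⟩, hu0.symm⟩
        · subst e; exact Or.inr ⟨l1, Or.inl ⟨hl1, hl1'⟩, hl1.symm⟩
        · by_cases h2 : G.Adj x l1
          · exact Or.inr ⟨l1, Or.inl ⟨hl1, hl1'⟩, h2.symm⟩
          · exact Or.inl (Or.inr ⟨e, h2⟩)
        · exact Or.inl (Or.inl e)
      · rintro x (⟨a1, a2⟩ | ⟨a1, a2⟩) y (⟨b1, b2⟩ | ⟨b1, b2⟩)
        · exact iL x y a1 a2 b1 b2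
        · exact fun e => free_of y b1 b2 x a1 a2 e.symm
        · exact free_of x a1 a2 y b1 b2
        · exact iB x y a1 b1 a2 b2
    have s24 : Step G v M4 M2 := by
      refine ⟨Or.inl rfl, ?_, ?_, ?_⟩
      · rintro (⟨e, _⟩ | ⟨e, _⟩)
        · exact hcv e
        · exact ir _ e
      · rintro x (rfl | e)
        · exact Or.inl rfl
        · exact Or.inr (Or.inl e)
      · rintro x (e | ⟨e, _⟩)
        · exact Or.inl (Or.inr e)
        · exact Or.inr e
    have n14 : ({v, c} : Set V) ≠ M4 := by
      intro e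
      have : v ∈ ({v, c} : Set V) := by simp
      rw [e] at this
      exact s24.2.1 this
    by_cases hAB : ∀ a, G.Adj v a → ¬ G.Adj c a → ¬ G.Adj a l1
    · have s45 : Step G c M4 M5 := by
        refine ⟨Or.inl rfl, ?_, ?_, ?_⟩
        · rintro (⟨e, _⟩ | ⟨e, _⟩)
          · exact ir _ e
          · exact hna e
        · rintro x (rfl | ⟨a1, a2⟩)
          · exact Or.inl rfl
          · exact Or.inr (Or.inr ⟨a1, hAB x a1 a2⟩)
        · rintro x (⟨a1, _⟩ | ⟨a1, a2⟩)
          · exact Or.inr a1
          · by_cases hcx : G.Adj c x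
            · exact Or.inr hcx
            · exact Or.inl (Or.inr ⟨a1, hcx⟩)
      exact short4 d1 d2 d4 d5 s12.ra' s24.ra' s45.ra s15.ra n14 n25
    · push Not at hAB
      obtain ⟨w, hwv, hwc', hwl⟩ := hAB
      -- A and B are disjoint
      have disj : ∀ a, G.Adj v a → ¬ G.Adj c a → G.Adj a l1 := by
        intro a ha1 ha2
        by_contra ha3
        have haf := free_of a ha1 ha3
        have hwf := full_of w hwv hwl
        have ne1 : w ≠ a := by rintro rfl; exact ha3 hwl
        have e1 : l1 ≠ a := by rintro rfl; exact hl1' ha1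
        have e2 : l2 ≠ a := by rintro rfl; exact hl2' ha1
        have e3 : c ≠ a := fun e => wc a ha1 e.symm
        have := h.no2 (v := a) (a := w) (b := l1) (c := c) (d := l2) ne1
          (iA a w ha1 ha2 hwv hwc') e1 (haf l1 hl1 hl1') e3 (fun e => ha2 e.symm) e2
          (haf l2 hl2 hl2') hwl hl2
        rcases this with r | r | r | r
        · exact wc w hwv r
        · subst r; exact hwc' hl2
        · exact lc l1 hl1 r
        · exact hne r
      have BsubC : ∀ u, G.Adj v u → ¬ G.Adj u l1 → G.Adj c u := by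
        intro u hu1 hu2
        by_contra hc
        exact hu2 (disj u hu1 hc)
      by_cases hall : ∃ w1, G.Adj v w1 ∧ ¬ G.Adj c w1 ∧ ∀ u, G.Adj v u → ¬ G.Adj u l1 → G.Adj w1 u
      · obtain ⟨w1, q1, q2, q3⟩ := hall
        refine K w1 l1 q1 q2 (full_of w1 q1 (disj w1 q1 q2)) hl1 hl1' ?_ ?_
        · intro a a1 a2
          exact Or.inr (disj a a1 a2).symm
        · intro x hx
          by_cases hxl : G.Adj x l1
          · exact Or.inr (Or.inr hxl.symm)
          · exact Or.inr (Or.inl (q3 x hx hxl))
      · push Not at hall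
        obtain ⟨u, hu1, hu2, hu3⟩ := hall w hwv hwc'
        have hcu := BsubC u hu1 hu2
        have hwf := full_of w hwv hwl
        have huf := free_of u hu1 hu2
        have huw : u ≠ w := by rintro rfl; exact hu2 hwl
        have lu : ∀ l, G.Adj c l → ¬ G.Adj v l → l ≠ u := by
          rintro l _ hl rfl; exact hl hu1
        -- every full x ≠ w is adjacent to u
        have fu : ∀ x, G.Adj v x → G.Adj x l1 → x ≠ w → G.Adj u x := by
          intro x hx1 hx2 hx3
          by_contra hc
          have hxf := full_of x hx1 hx2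
          have hxu : x ≠ u := by rintro rfl; exact hu2 hx2
          have := h.no2 (v := u) (a := w) (b := l1) (c := x) (d := l2) huw.symm
            (fun e => hu3 e.symm) (lu l1 hl1 hl1') (huf l1 hl1 hl1') hxu hc
            (lu l2 hl2 hl2') (huf l2 hl2 hl2') hwl (hxf l2 hl2 hl2')
          rcases this with r | r | r | r
          · exact hx3 r.symm
          · subst r; exact hwc' hl2
          · subst r; exact hl1' hx1
          · exact hne r
        let M7 : Set V := {x | x = w ∨ ((G.Adj v x ∧ ¬ G.Adj x l1) ∧ ¬ G.Adj w x)}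
        have uM7 : u ∈ M7 := Or.inr ⟨⟨hu1, hu2⟩, hu3⟩
        have d7 : MD G M7 := by
          apply MD.of_indep
          · intro x
            rcases part x with e | e | e | e
            · subst e; exact Or.inr ⟨w, Or.inl rfl, hwv.symm⟩
            · subst e; exact Or.inr ⟨u, uM7, hcu.symm⟩
            · by_cases hxw : x = w
              · exact Or.inl (Or.inl hxw)
              · by_cases hxl : G.Adj x l1
                · exact Or.inr ⟨u, uM7, fu x e hxl hxw⟩
                · by_cases hwx : G.Adj w x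
                  · exact Or.inr ⟨w, Or.inl rfl, hwx⟩
                  · exact Or.inl (Or.inr ⟨⟨e, hxl⟩, hwx⟩)
            · exact Or.inr ⟨w, Or.inl rfl, hwf x e.1 e.2⟩
          · rintro x (rfl | ⟨⟨a1, a2⟩, a3⟩) y (rfl | ⟨⟨b1, b2⟩, b3⟩)
            · exact ir _
            · exact b3
            · exact fun e => a3 e.symm
            · exact iB x y a1 b1 a2 b2
        have s47 : Step G w M4 M7 := by
          refine ⟨Or.inl rfl, ?_, ?_, ?_⟩
          · rintro (⟨_, e⟩ | ⟨_, e⟩)
            · exact e hwv
            · exact e hwl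
          · rintro x (rfl | ⟨e, _⟩)
            · exact Or.inl rfl
            · exact Or.inr (Or.inr e)
          · rintro x (⟨a1, a2⟩ | e)
            · exact Or.inr (hwf x a1 a2)
            · by_cases hwx : G.Adj w x
              · exact Or.inr hwx
              · exact Or.inl (Or.inr ⟨e, hwx⟩)
        have r75 : RA G M7 M5 := by
          by_cases hone : ∀ a, G.Adj v a → ¬ G.Adj c a → a = w
          · refine Step.ra (v := c) ⟨Or.inl rfl, ?_, ?_, ?_⟩
            · rintro (e | ⟨⟨e, _⟩, _⟩)
              · exact wc w hwv e.symm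
              · exact hna e
            · rintro x (rfl | ⟨a1, a2⟩)
              · exact Or.inl rfl
              · exact Or.inr (Or.inl (hone x a1 a2))
            · rintro x (rfl | ⟨⟨a1, a2⟩, a3⟩)
              · exact Or.inl (Or.inr ⟨hwv, hwc'⟩)
              · exact Or.inr (BsubC x a1 a2)
          · push Not at hone
            obtain ⟨w2, p1, p2, p3⟩ := hone
            have huw2 : G.Adj u w2 := fu w2 p1 (disj w2 p1 p2) p3
            have uniq : ∀ x, G.Adj v x → ¬ G.Adj x l1 → ¬ G.Adj w x → x = u := by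
              intro x x1 x2 x3
              by_contra hxu
              have hxw : x ≠ w := by rintro rfl; exact x2 hwl
              have := h.no2 (v := w) (a := u) (b := w2) (c := c) (d := x) huw hu3 p3
                (iA w w2 hwv hwc' p1 p2) (Ne.symm (wc w hwv)) (fun e => hwc' e.symm) hxw x3 huw2
                (BsubC x x1 x2)
              rcases this with r | r | r | r
              · exact wc u hu1 r
              · exact hxu r.symm
              · exact wc w2 p1 r
              · subst r; exact x2 (disj w2 p1 p2)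
            refine Step.ra' (v := u) ⟨uM7, ?_, ?_, ?_⟩
            · rintro (e | ⟨_, e⟩)
              · exact wc u hu1 e
              · exact e hcu
            · rintro x (rfl | ⟨⟨a1, a2⟩, a3⟩)
              · exact Or.inr (Or.inr ⟨hwv, hwc'⟩)
              · exact Or.inl (uniq x a1 a2 a3)
            · rintro x (rfl | ⟨a1, a2⟩)
              · exact Or.inr hcu.symm
              · by_cases hxw : x = w
                · exact Or.inl (Or.inl hxw)
                · exact Or.inr (fu x a1 (disj x a1 a2) hxw)
        exact short5 d1 d2 d4 d7 d5 s12.ra' s24.ra' s47.ra r75 s15.ra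
  · -- no free vertex
    have hnf : ∀ u, G.Adj v u → ∃ l, G.Adj c l ∧ ¬ G.Adj v l ∧ G.Adj u l := by
      intro u hu
      by_contra hc
      push Not at hc
      exact hfree ⟨u, hu, hc⟩
    have P' : ∀ w w' l, G.Adj v w → G.Adj v w' → w ≠ w' → G.Adj c l → ¬ G.Adj v l →
        ¬ G.Adj l w → G.Adj l w' := by
      intro w w' l a1 a2 a3 b1 b2 c1
      by_contra c2
      obtain ⟨l', e1, e2, e3⟩ := hnf w a1
      exact P w w' l a1 a2 a3 b1 b2 c1 c2 l' e1 e2 e3
    by_cases hb2 : ∃ w l, G.Adj v w ∧ ¬ G.Adj c w ∧ G.Adj c l ∧ ¬ G.Adj v l ∧ ¬ G.Adj l w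
    · obtain ⟨w, l, hwv, hwc', hl, hl', hlw⟩ := hb2
      let M10 : Set V := {x | x = w ∨ ((G.Adj c x ∧ ¬ G.Adj v x) ∧ ¬ G.Adj w x)}
      have lM : l ∈ M10 := Or.inr ⟨⟨hl, hl'⟩, fun e => hlw e.symm⟩
      have d10 : MD G M10 := by
        apply MD.of_indep
        · intro x
          rcases part x with e | e | e | e
          · subst e; exact Or.inr ⟨w, Or.inl rfl, hwv.symm⟩
          · subst e; exact Or.inr ⟨l, lM, hl.symm⟩
          · by_cases hxw : x = w
            · exact Or.inl (Or.inl hxw)
            · exact Or.inr ⟨l, lM, P' w x l hwv e (Ne.symm hxw) hl hl' hlw⟩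
          · by_cases hwx : G.Adj w x
            · exact Or.inr ⟨w, Or.inl rfl, hwx⟩
            · exact Or.inl (Or.inr ⟨e, hwx⟩)
        · rintro x (rfl | ⟨⟨a1, a2⟩, a3⟩) y (rfl | ⟨⟨b1, b2⟩, b3⟩)
          · exact ir _
          · exact b3
          · exact fun e => a3 e.symm
          · exact iL x y a1 a2 b1 b2
      have s210 : Step G w M2 M10 := by
        refine ⟨Or.inl rfl, ?_, ?_, ?_⟩
        · rintro (e | ⟨e, _⟩)
          · exact wv w hwv e
          · exact hwc' e
        · rintro x (rfl | ⟨e, _⟩)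
          · exact Or.inl rfl
          · exact Or.inr (Or.inr e)
        · rintro x (rfl | e)
          · exact Or.inr hwv.symm
          · by_cases hwx : G.Adj w x
            · exact Or.inr hwx
            · exact Or.inl (Or.inr ⟨e, hwx⟩)
      have r510 : RA G M10 M5 := by
        by_cases hone : ∀ a, G.Adj v a → ¬ G.Adj c a → a = w
        · refine Step.ra (v := c) ⟨Or.inl rfl, ?_, ?_, ?_⟩
          · rintro (e | ⟨⟨e, _⟩, _⟩)
            · exact wc w hwv e.symm
            · exact ir _ e
          · rintro x (rfl | ⟨a1, a2⟩)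
            · exact Or.inl rfl
            · exact Or.inr (Or.inl (hone x a1 a2))
          · rintro x (rfl | ⟨⟨a1, a2⟩, a3⟩)
            · exact Or.inl (Or.inr ⟨hwv, hwc'⟩)
            · exact Or.inr a1
        · push Not at hone
          obtain ⟨w2, p1, p2, p3⟩ := hone
          have hlw2 : G.Adj l w2 := P' w w2 l hwv p1 (Ne.symm p3) hl hl' hlw
          have uniq : ∀ x, G.Adj c x → ¬ G.Adj v x → ¬ G.Adj w x → x = l := by
            intro x x1 x2 x3
            by_contra hxl
            have hxw : x ≠ w := by rintro rfl; exact x2 hwv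
            have hlw' : l ≠ w := by rintro rfl; exact hl' hwv
            have := h.no2 (v := w) (a := l) (b := w2) (c := c) (d := x) hlw'
              (fun e => hlw e.symm) p3
              (iA w w2 hwv hwc' p1 p2) (Ne.symm (wc w hwv)) (fun e => hwc' e.symm) hxw x3 hlw2 x1
            rcases this with r | r | r | r
            · exact lc l hl r
            · exact hxl r.symm
            · exact wc w2 p1 r
            · subst r; exact x2 p1
          refine Step.ra' (v := l) ⟨lM, ?_, ?_, ?_⟩
          · rintro (e | ⟨e, _⟩)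
            · exact lc l hl e
            · exact hl' e
          · rintro x (rfl | ⟨⟨a1, a2⟩, a3⟩)
            · exact Or.inr (Or.inr ⟨hwv, hwc'⟩)
            · exact Or.inl (uniq x a1 a2 a3)
          · rintro x (rfl | ⟨a1, a2⟩)
            · exact Or.inr hl.symm
            · by_cases hxw : x = w
              · exact Or.inl (Or.inl hxw)
              · exact Or.inr (P' w x l hwv a1 (Ne.symm hxw) hl hl' hlw)
      refine short4 d1 d2 d10 d5 s12.ra' s210.ra r510 s15.ra ?_ n25
      intro e
      have : v ∈ ({v, c} : Set V) := by simp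
      rw [e] at this
      rcases this with r | ⟨⟨r, _⟩, _⟩
      · exact wv w hwv r.symm
      · exact hcv r
    · push Not at hb2
      -- all vertices of A are full
      have fullA : ∀ w, G.Adj v w → ¬ G.Adj c w → ∀ l, G.Adj c l → ¬ G.Adj v l → G.Adj l w :=
        fun w a b l d e => hb2 w l a b d e
      by_cases hK : ∃ l, G.Adj c l ∧ ¬ G.Adj v l ∧ ∀ x, G.Adj v x → x = w0 ∨ G.Adj w0 x ∨ G.Adj l x
      · obtain ⟨l, k1, k2, k3⟩ := hK
        exact K w0 l hw0 hw0c (fun l a b => (fullA w0 hw0 hw0c l a b).symm) k1 k2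
          (fun a a1 a2 => Or.inr (fullA a a1 a2 l k1 k2)) k3
      · push Not at hK
        obtain ⟨x1, p1, p2, p3, p4⟩ := hK l1 hl1 hl1'
        obtain ⟨m2, r1, r2, r3⟩ := hnf x1 p1
        obtain ⟨x2, q1, q2, q3, q4⟩ := hK m2 r1 r2
        -- x1 not adj l1, x1 adj m2, x2 not adj m2
        have hx12 : x1 ≠ x2 := by rintro rfl; exact q4 r3.symm
        have hlm : l1 ≠ m2 := by rintro rfl; exact p4 r3.symm
        have hcx1 : G.Adj c x1 := by
          by_contra hc
          exact p4 (fullA x1 p1 hc l1 hl1 hl1')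
        have hcx2 : G.Adj c x2 := by
          by_contra hc
          exact q4 (fullA x2 q1 hc m2 r1 r2)
        have hl1x2 : G.Adj l1 x2 := P' x1 x2 l1 p1 q1 hx12 hl1 hl1' p4
        have hw0l : ∀ l, G.Adj c l → ¬ G.Adj v l → G.Adj l w0 := fullA w0 hw0 hw0c
        have n12 : ¬ G.Adj x1 x2 := by
          intro e
          exact h.no3 (v := w0) (a := c) (b := x1) (c := x2) (Ne.symm (wc w0 hw0))
            (fun e => hw0c e.symm) p2 p3 q2 q3 hcx1 e hcx2.symm
        have uniq : ∀ x l x', G.Adj v x → x ≠ w0 → ¬ G.Adj w0 x → G.Adj c l → ¬ G.Adj v l →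
            ¬ G.Adj l x → G.Adj v x' → x' ≠ x → x' ≠ w0 → ¬ G.Adj x x' →
            ∀ l', G.Adj c l' → ¬ G.Adj v l' → ¬ G.Adj l' x → l' = l := by
          intro x l x' a1 a2 a3 a4 a5 a6 a7 a8 a9 a10 l' b1 b2 b3
          by_contra hll
          have e1 : l ≠ x := by rintro rfl; exact a5 a1
          have e2 : l' ≠ x := by rintro rfl; exact b2 a1
          have := h.no2 (v := x) (a := w0) (b := l) (c := x') (d := l') (Ne.symm a2)
            (fun e => a3 e.symm) e1 (fun e => a6 e.symm) a8 a10 e2 (fun e => b3 e.symm)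
            (hw0l l a4 a5).symm (P' x x' l' a1 a7 (Ne.symm a8) b1 b2 b3).symm
          rcases this with r | r | r | r
          · exact a9 r.symm
          · subst r; exact b2 hw0
          · subst r; exact a5 a7
          · exact hll r.symm
        have u1 := uniq x1 l1 x2 p1 p2 p3 hl1 hl1' p4 q1 (Ne.symm hx12) q2 n12
        have u2 := uniq x2 m2 x1 q1 q2 q3 r1 r2 q4 p1 hx12 p2 (fun e => n12 e.symm)
        have dd : ∀ x l, G.Adj v x → G.Adj c l → ¬ G.Adj v l → ¬ G.Adj l x →
            (∀ l', G.Adj c l' → ¬ G.Adj v l' → ¬ G.Adj l' x → l' = l) → MD G ({x, l} : Set V) := by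
          intro x l a1 a2 a3 a4 a5
          apply MD.of_indep
          · intro z
            rcases part z with e | e | e | e
            · subst e; exact Or.inr ⟨x, by simp, a1.symm⟩
            · subst e; exact Or.inr ⟨l, by simp, a2.symm⟩
            · by_cases hzx : z = x
              · subst hzx; exact Or.inl (by simp)
              · exact Or.inr ⟨l, by simp, P' x z l a1 e (Ne.symm hzx) a2 a3 a4⟩
            · by_cases hzx : G.Adj z x
              · exact Or.inr ⟨x, by simp, hzx.symm⟩
              · have := a5 z e.1 e.2 hzx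
                subst this; exact Or.inl (by simp)
          · rintro y (rfl | rfl) z (rfl | rfl)
            · exact ir _
            · exact fun e => a4 e.symm
            · exact a4
            · exact ir _
        have ss : ∀ x l, G.Adj v x → G.Adj c x → G.Adj c l → ¬ G.Adj v l →
            (∀ l', G.Adj c l' → ¬ G.Adj v l' → ¬ G.Adj l' x → l' = l) → Step G x M2 {x, l} := by
          intro x l a1 a2 a3 a4 a5
          refine ⟨by simp, ?_, ?_, ?_⟩
          · rintro (e | ⟨_, e⟩)
            · exact wv x a1 e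
            · exact e a1
          · rintro z (rfl | rfl)
            · exact Or.inl rfl
            · exact Or.inr (Or.inr ⟨a3, a4⟩)
          · rintro z (rfl | ⟨e1, e2⟩)
            · exact Or.inr a1.symm
            · by_cases hzx : G.Adj z x
              · exact Or.inr hzx.symm
              · have := a5 z e1 e2 hzx
                subst this; exact Or.inl (by simp)
        obtain ⟨Z, z1, z2, z3, z4⟩ := exists_mis G {x | G.Adj v x} {w0, x1, x2}
          (by rintro x (rfl | rfl | rfl) <;> assumption)
          (by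
            rintro x (rfl | rfl | rfl) y (rfl | rfl | rfl)
            · exact ir _
            · exact p3
            · exact q3
            · exact fun e => p3 e.symm
            · exact ir _
            · exact n12
            · exact fun e => q3 e.symm
            · exact fun e => n12 e.symm
            · exact ir _)
        have w0Z : w0 ∈ Z := z1 (by simp)
        have x1Z : x1 ∈ Z := z1 (by simp)
        have x2Z : x2 ∈ Z := z1 (by simp)
        have dZ : MD G Z := by
          apply MD.of_indep
          · intro x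
            rcases part x with e | e | e | e
            · subst e; exact Or.inr ⟨w0, w0Z, hw0.symm⟩
            · subst e; exact Or.inr ⟨x1, x1Z, hcx1.symm⟩
            · exact z4 x e
            · exact Or.inr ⟨w0, w0Z, (hw0l x e.1 e.2).symm⟩
          · exact z3
        have sZ : ∀ x l, G.Adj v x → x ∈ Z → G.Adj c l → ¬ G.Adj v l → ¬ G.Adj l x →
            Step G l Z {x, l} := by
          intro x l a1 a2 a3 a4 a5
          refine ⟨by simp, fun e => a4 (z2 e), ?_, ?_⟩
          · rintro z (rfl | rfl)
            · exact Or.inr a2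
            · exact Or.inl rfl
          · intro z hz
            by_cases hzx : z = x
            · subst hzx; exact Or.inl (by simp)
            · exact Or.inr (P' x z l a1 (z2 hz) (Ne.symm hzx) a3 a4 a5)
        refine short4 d2 (dd x1 l1 p1 hl1 hl1' p4 u1) dZ (dd x2 m2 q1 r1 r2 q4 u2)
          (ss x1 l1 p1 hcx1 hl1 hl1' u1).ra (sZ x1 l1 p1 x1Z hl1 hl1' p4).ra'
          (sZ x2 m2 q1 x2Z r1 r2 q4).ra (ss x2 m2 q1 hcx2 r1 r2 u2).ra' ?_ ?_
        · intro e
          have : v ∈ M2 := Or.inl rfl
          rw [e] at this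
          exact ir _ (z2 this)
        · intro e
          have : x1 ∈ ({x1, l1} : Set V) := by simp
          rw [e] at this
          rcases this with r | r
          · exact hx12 r
          · subst r; exact r2 p1

end Pool.Agent.V11272.GR
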