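import Mathlib

set_option autoImplicit false

/-! Core definitions for the reconfiguration graph of minimal dominating sets. -/

namespace Pool.Agent.V11272.GR

universe u

variable {V : Type u}

/-- `S` is dominating and every element of `S` has a private neighbour (possibly itself). -/
def MD (G : SimpleGraph V) (M : Set V) : Prop :=
  (∀ x, x ∈ M ∨ ∃ m ∈ M, G.Adj m x) ∧
  (∀ m ∈ M, ∃ p, (p = m ∨ G.Adj m p) ∧ ∀ m' ∈ M, (p = m' ∨ G.Adj m' p) → m' = m)

/-- `N` arises from `M` by replacing some neighbours of `v` by `v`. -/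
def Step (G : SimpleGraph V) (v : V) (M N : Set V) : Prop :=
  v ∈ N ∧ v ∉ M ∧ (∀ x ∈ N, x = v ∨ x ∈ M) ∧ (∀ x ∈ M, x ∈ N ∨ G.Adj v x)

def RA (G : SimpleGraph V) (M N : Set V) : Prop :=
  (∃ v, Step G v M N) ∨ (∃ v, Step G v N M)

theorem RA.symm {G : SimpleGraph V} {M N : Set V} (h : RA G M N) : RA G N M := Or.symm h

theorem RA.ne {G : SimpleGraph V} {M N : Set V} (h : RA G M N) : M ≠ N := by
  rintro rfl
  rcases h with ⟨v, h1, h2, _⟩ | ⟨v, h1, h2, _⟩ <;> exact h2 h1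

theorem Step.ra {G : SimpleGraph V} {v : V} {M N : Set V} (h : Step G v M N) : RA G M N :=
  Or.inl ⟨v, h⟩

theorem Step.ra' {G : SimpleGraph V} {v : V} {M N : Set V} (h : Step G v M N) : RA G N M :=
  Or.inr ⟨v, h⟩

/-- There is a cycle of length 3, 4 or 5 (through minimal dominating sets). -/
def Short (G : SimpleGraph V) : Prop :=
  (∃ A B C, MD G A ∧ MD G B ∧ MD G C ∧ RA G A B ∧ RA G B C ∧ RA G C A) ∨
  (∃ A B C D, MD G A ∧ MD G B ∧ MD G C ∧ MD G D ∧ RA G A B ∧ RA G B C ∧ RA G C D ∧ RA G D A ∧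
    A ≠ C ∧ B ≠ D) ∨
  (∃ A B C D E, MD G A ∧ MD G B ∧ MD G C ∧ MD G D ∧ MD G E ∧
    RA G A B ∧ RA G B C ∧ RA G C D ∧ RA G D E ∧ RA G E A ∧
    A ≠ C ∧ A ≠ D ∧ B ≠ D ∧ B ≠ E ∧ C ≠ E)

theorem short3 {G : SimpleGraph V} {A B C : Set V} (a : MD G A) (b : MD G B) (c : MD G C)
    (ab : RA G A B) (bc : RA G B C) (ca : RA G C A) : Short G :=
  Or.inl ⟨A, B, C, a, b, c, ab, bc, ca⟩

theorem short4 {G : SimpleGraph V} {A B C D : Set V} (a : MD G A) (b : MD G B) (c : MD G C)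
    (d : MD G D) (ab : RA G A B) (bc : RA G B C) (cd : RA G C D) (da : RA G D A)
    (ac : A ≠ C) (bd : B ≠ D) : Short G :=
  Or.inr (Or.inl ⟨A, B, C, D, a, b, c, d, ab, bc, cd, da, ac, bd⟩)

theorem short5 {G : SimpleGraph V} {A B C D E : Set V} (a : MD G A) (b : MD G B) (c : MD G C)
    (d : MD G D) (e : MD G E) (ab : RA G A B) (bc : RA G B C) (cd : RA G C D) (de : RA G D E)
    (ea : RA G E A) : Short G := by
  by_cases h1 : A = C
  · subst h1; exact short3 a d e cd de ea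
  by_cases h2 : A = D
  · subst h2; exact short3 a b c ab bc cd
  by_cases h3 : B = D
  · subst h3; exact short3 a b e ab de ea
  by_cases h4 : B = E
  · subst h4; exact short3 b c d bc cd de
  by_cases h5 : C = E
  · subst h5; exact short3 a b c ab bc ea
  exact Or.inr (Or.inr ⟨A, B, C, D, E, a, b, c, d, e, ab, bc, cd, de, ea, h1, h2, h3, h4, h5⟩)

theorem MD.of_indep {G : SimpleGraph V} {M : Set V} (h : ∀ x, x ∈ M ∨ ∃ m ∈ M, G.Adj m x)
    (hi : ∀ x ∈ M, ∀ y ∈ M, ¬ G.Adj x y) : MD G M := by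
  refine ⟨h, fun m hm => ⟨m, Or.inl rfl, fun m' hm' h' => ?_⟩⟩
  rcases h' with h' | h'
  · exact h'.symm
  · exact absurd h' (hi _ hm' _ hm)

/-- All edges pass through one vertex (or there is no edge). -/
def StarLike (G : SimpleGraph V) : Prop :=
  (∀ x y, ¬ G.Adj x y) ∨ ∃ c, ∀ x y, G.Adj x y → x = c ∨ y = c

/-- non-neighbourhoods are star-like. -/
def NS (G : SimpleGraph V) : Prop :=
  ∀ v, (∀ x y, x ≠ v → ¬ G.Adj v x → y ≠ v → ¬ G.Adj v y → ¬ G.Adj x y) ∨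
    ∃ c, ∀ x y, x ≠ v → ¬ G.Adj v x → y ≠ v → ¬ G.Adj v y → G.Adj x y → x = c ∨ y = c

/-- two vertex disjoint edges outside the closed neighbourhood of `v` are impossible. -/
theorem NS.no2 {G : SimpleGraph V} (h : NS G) {v a b c d : V}
    (ha : a ≠ v) (ha' : ¬ G.Adj v a) (hb : b ≠ v) (hb' : ¬ G.Adj v b)
    (hc : c ≠ v) (hc' : ¬ G.Adj v c) (hd : d ≠ v) (hd' : ¬ G.Adj v d)
    (hab : G.Adj a b) (hcd : G.Adj c d) : a = c ∨ a = d ∨ b = c ∨ b = d := by
  rcases h v with h | ⟨z, h⟩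
  · exact absurd hab (h a b ha ha' hb hb')
  · rcases h a b ha ha' hb hb' hab with rfl | rfl <;>
    rcases h c d hc hc' hd hd' hcd with rfl | rfl <;> simp

/-- no triangle outside the closed neighbourhood of `v`. -/
theorem NS.no3 {G : SimpleGraph V} (h : NS G) {v a b c : V}
    (ha : a ≠ v) (ha' : ¬ G.Adj v a) (hb : b ≠ v) (hb' : ¬ G.Adj v b)
    (hc : c ≠ v) (hc' : ¬ G.Adj v c)
    (hab : G.Adj a b) (hbc : G.Adj b c) (hca : G.Adj c a) : False := by
  rcases h v with h | ⟨z, h⟩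
  · exact absurd hab (h a b ha ha' hb hb')
  · have h1 := h a b ha ha' hb hb' hab
    have h2 := h b c hb hb' hc hc' hbc
    have h3 := h c a hc hc' ha ha' hca
    have e1 := hab.ne
    have e2 := hbc.ne
    have e3 := hca.ne
    grind

/-- maximal independent subset of `W` containing `Z`. -/
theorem exists_mis [Finite V] (G : SimpleGraph V) (W Z : Set V) (hZ : Z ⊆ W)
    (hi : ∀ x ∈ Z, ∀ y ∈ Z, ¬ G.Adj x y) :
    ∃ M, Z ⊆ M ∧ M ⊆ W ∧ (∀ x ∈ M, ∀ y ∈ M, ¬ G.Adj x y) ∧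
      (∀ x ∈ W, x ∈ M ∨ ∃ m ∈ M, G.Adj m x) := by
  classical
  let P : Set (Set V) := {M | Z ⊆ M ∧ M ⊆ W ∧ (∀ x ∈ M, ∀ y ∈ M, ¬ G.Adj x y)}
  have hfin : P.Finite := Set.toFinite _
  have hne : P.Nonempty := ⟨Z, subset_rfl, hZ, hi⟩
  obtain ⟨M, hM⟩ := hfin.exists_maximal hne
  obtain ⟨⟨h1, h2, h3⟩, h4⟩ := hM
  refine ⟨M, h1, h2, h3, fun x hx => ?_⟩
  by_contra hcon
  push Not at hcon
  obtain ⟨hxM, hxA⟩ := hcon
  have : insert x M ∈ P := by
    refine ⟨h1.trans (Set.subset_insert _ _), Set.insert_subset hx h2, ?_⟩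
    intro a ha b hb
    rcases ha with rfl | ha <;> rcases hb with rfl | hb
    · exact G.loopless.irrefl _
    · exact fun h => hxA b hb h.symm
    · exact fun h => hxA a ha h
    · exact h3 a ha b hb
  exact hxM (h4 this (Set.subset_insert _ _) (Set.mem_insert _ _))

end Pool.Agent.V11272.GR
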