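import Pool.Agent.V11272.GR.Main

set_option autoImplicit false

namespace Pool.Agent.V11272.GR

universe u

/-- the graph induced on the complement of the closed neighbourhood of `v`. -/
abbrev Out {V : Type u} (G : SimpleGraph V) (v : V) : Type u := {x : V // x ≠ v ∧ ¬ G.Adj v x}

abbrev outG {V : Type u} (G : SimpleGraph V) (v : V) : SimpleGraph (Out G v) :=
  G.comap Subtype.val

/-- lift of a set in the outer graph. -/
def lift {V : Type u} (G : SimpleGraph V) (v : V) (M : Set (Out G v)) : Set V :=
  {x | x = v ∨ ∃ h : x ≠ v ∧ ¬ G.Adj v x, (⟨x, h⟩ : Out G v) ∈ M}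

theorem mem_lift {V : Type u} (G : SimpleGraph V) (v : V) (M : Set (Out G v)) (y : Out G v) :
    y.1 ∈ lift G v M ↔ y ∈ M := by
  constructor
  · rintro (h | ⟨_, h⟩)
    · exact absurd h y.2.1
    · exact h
  · intro h
    exact Or.inr ⟨y.2, h⟩

theorem lift_inj {V : Type u} (G : SimpleGraph V) (v : V) {M N : Set (Out G v)}
    (h : lift G v M = lift G v N) : M = N := by
  ext y
  rw [← mem_lift G v M y, h, mem_lift]

theorem lift_md {V : Type u} (G : SimpleGraph V) (v : V) {M : Set (Out G v)}
    (h : MD (outG G v) M) : MD G (lift G v M) := by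
  obtain ⟨h1, h2⟩ := h
  refine ⟨?_, ?_⟩
  · intro x
    by_cases hx : x = v
    · exact Or.inl (Or.inl hx)
    by_cases hx2 : G.Adj v x
    · exact Or.inr ⟨v, Or.inl rfl, hx2⟩
    rcases h1 ⟨x, hx, hx2⟩ with e | ⟨m, hm, e⟩
    · exact Or.inl (Or.inr ⟨⟨hx, hx2⟩, e⟩)
    · exact Or.inr ⟨m.1, (mem_lift G v M m).2 hm, e⟩
  · rintro m (rfl | ⟨hm, hm'⟩)
    · refine ⟨m, Or.inl rfl, ?_⟩
      rintro m' (rfl | ⟨r, _⟩) hm'
      · rfl
      · rcases hm' with e | e
        · exact e.symm
        · exact absurd e.symm r.2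
    · obtain ⟨p, hp1, hp2⟩ := h2 ⟨m, hm⟩ hm'
      refine ⟨p.1, ?_, ?_⟩
      · rcases hp1 with e | e
        · left; rw [e]
        · right; exact e
      · rintro m' (rfl | ⟨r, r'⟩) hq
        · rcases hq with e | e
          · exact absurd e p.2.1
          · exact absurd e p.2.2
        · have := hp2 ⟨m', r⟩ r' (by
            rcases hq with e | e
            · left; exact Subtype.ext e
            · right; exact e)
          exact congrArg Subtype.val this

theorem lift_step {V : Type u} (G : SimpleGraph V) (v : V) {M N : Set (Out G v)} {w : Out G v}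
    (h : Step (outG G v) w M N) : Step G w.1 (lift G v M) (lift G v N) := by
  obtain ⟨h1, h2, h3, h4⟩ := h
  refine ⟨(mem_lift G v N w).2 h1, fun e => h2 ((mem_lift G v M w).1 e), ?_, ?_⟩
  · rintro x (rfl | ⟨r, r'⟩)
    · exact Or.inr (Or.inl rfl)
    · rcases h3 _ r' with e | e
      · left; exact congrArg Subtype.val e
      · right; exact Or.inr ⟨r, e⟩
  · rintro x (rfl | ⟨r, r'⟩)
    · exact Or.inl (Or.inl rfl)
    · rcases h4 _ r' with e | e
      · left; exact Or.inr ⟨r, e⟩
      · right; exact e

theorem lift_ra {V : Type u} (G : SimpleGraph V) (v : V) {M N : Set (Out G v)}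
    (h : RA (outG G v) M N) : RA G (lift G v M) (lift G v N) := by
  rcases h with ⟨w, h⟩ | ⟨w, h⟩
  · exact (lift_step G v h).ra
  · exact (lift_step G v h).ra'

theorem lift_short {V : Type u} (G : SimpleGraph V) (v : V) (h : Short (outG G v)) :
    Short G := by
  rcases h with ⟨A, B, C, a, b, c, ab, bc, ca⟩ | ⟨A, B, C, D, a, b, c, d, ab, bc, cd, da, ac, bd⟩ |
    ⟨A, B, C, D, E, a, b, c, d, e, ab, bc, cd, de, ea, -⟩
  · exact short3 (lift_md G v a) (lift_md G v b) (lift_md G v c) (lift_ra G v ab)
      (lift_ra G v bc) (lift_ra G v ca)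
  · exact short4 (lift_md G v a) (lift_md G v b) (lift_md G v c) (lift_md G v d) (lift_ra G v ab)
      (lift_ra G v bc) (lift_ra G v cd) (lift_ra G v da) (fun e => ac (lift_inj G v e))
      (fun e => bd (lift_inj G v e))
  · exact short5 (lift_md G v a) (lift_md G v b) (lift_md G v c) (lift_md G v d) (lift_md G v e)
      (lift_ra G v ab) (lift_ra G v bc) (lift_ra G v cd) (lift_ra G v de) (lift_ra G v ea)

theorem ns_of_star {V : Type u} (G : SimpleGraph V) (h : ∀ v, StarLike (outG G v)) : NS G := by
  intro v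
  rcases h v with h | ⟨c, h⟩
  · left
    intro x y h1 h2 h3 h4
    exact h ⟨x, h1, h2⟩ ⟨y, h3, h4⟩
  · right
    refine ⟨c.1, fun x y h1 h2 h3 h4 h5 => ?_⟩
    rcases h ⟨x, h1, h2⟩ ⟨y, h3, h4⟩ h5 with e | e
    · left; exact congrArg Subtype.val e
    · right; exact congrArg Subtype.val e

theorem star_or_short_aux (n : ℕ) : ∀ (V : Type u) [Finite V] (G : SimpleGraph V),
    Nat.card V = n → StarLike G ∨ Short G := by
  induction n using Nat.strong_induction_on with
  | _ n ih =>
    intro V _ G hn
    by_cases hS : StarLike G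
    · exact Or.inl hS
    right
    by_cases hv : ∃ v, Short (outG G v)
    · obtain ⟨v, hv⟩ := hv
      exact lift_short G v hv
    push Not at hv
    refine main_step G hS (ns_of_star G fun v => ?_)
    have hlt : Nat.card (Out G v) < n := by
      rw [← hn]
      haveI := Fintype.ofFinite V
      classical
      rw [Nat.card_eq_fintype_card, Nat.card_eq_fintype_card]
      exact Fintype.card_subtype_lt (x := v) (by simp)
    rcases ih _ hlt (Out G v) (outG G v) rfl with h | h
    · exact h
    · exact absurd h (hv v)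

theorem star_or_short {V : Type u} [Finite V] (G : SimpleGraph V) : StarLike G ∨ Short G :=
  star_or_short_aux _ V G rfl

end Pool.Agent.V11272.GR
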