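import Pool.Agent.V11272.GR.Case0
import Pool.Agent.V11272.GR.Case2

set_option autoImplicit false

namespace Pool.Agent.V11272.GR

universe u

variable {V : Type u}

theorem case3 [Finite V] (G : SimpleGraph V) {v c l a b : V} (hvc : v ≠ c) (hna : ¬ G.Adj v c)
    (hcl : G.Adj c l) (hvl : ¬ G.Adj v l)
    (part : ∀ x, x = v ∨ x = c ∨ x = l ∨ G.Adj v x)
    (ha : G.Adj v a) (hca : ¬ G.Adj c a) (hA : ∀ x, G.Adj v x → ¬ G.Adj c x → x = a)
    (hb : G.Adj v b) (hlb : ¬ G.Adj l b) (hB : ∀ x, G.Adj v x → ¬ G.Adj l x → x = b) :
    Short G := by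
  have ir : ∀ x, ¬ G.Adj x x := fun x => G.loopless.irrefl x
  have hcv : ¬ G.Adj c v := fun e => hna e.symm
  have hlv : ¬ G.Adj l v := fun e => hvl e.symm
  have hvl' : v ≠ l := by rintro rfl; exact hcv hcl
  have hac : a ≠ c := by rintro rfl; exact hna ha
  have hav : a ≠ v := by rintro rfl; exact ir _ ha
  have hal : a ≠ l := by rintro rfl; exact hvl ha
  have hbc : b ≠ c := by rintro rfl; exact hna hb
  have hbv : b ≠ v := by rintro rfl; exact ir _ hb
  have hbl : b ≠ l := by rintro rfl; exact hvl hb
  have hcl' : c ≠ l := hcl.ne
  have dvc : MD G ({v, c} : Set V) := by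
    apply MD.of_indep
    · intro x
      rcases part x with e | e | e | e
      · subst e; exact Or.inl (by simp)
      · subst e; exact Or.inl (by simp)
      · subst e; exact Or.inr ⟨c, by simp, hcl⟩
      · exact Or.inr ⟨v, by simp, e⟩
    · rintro x (rfl | rfl) y (rfl | rfl) <;> first | exact ir _ | assumption
  have dvl : MD G ({v, l} : Set V) := by
    apply MD.of_indep
    · intro x
      rcases part x with e | e | e | e
      · subst e; exact Or.inl (by simp)
      · subst e; exact Or.inr ⟨l, by simp, hcl.symm⟩
      · subst e; exact Or.inl (by simp)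
      · exact Or.inr ⟨v, by simp, e⟩
    · rintro x (rfl | rfl) y (rfl | rfl) <;> first | exact ir _ | assumption
  have dca : MD G ({c, a} : Set V) := by
    apply MD.of_indep
    · intro x
      rcases part x with e | e | e | e
      · subst e; exact Or.inr ⟨a, by simp, ha.symm⟩
      · subst e; exact Or.inl (by simp)
      · subst e; exact Or.inr ⟨c, by simp, hcl⟩
      · by_cases hcx : G.Adj c x
        · exact Or.inr ⟨c, by simp, hcx⟩
        · have := hA x e hcx
          subst this; exact Or.inl (by simp)
    · rintro x (rfl | rfl) y (rfl | rfl)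
      · exact ir _
      · exact hca
      · exact fun e => hca e.symm
      · exact ir _
  have dlb : MD G ({l, b} : Set V) := by
    apply MD.of_indep
    · intro x
      rcases part x with e | e | e | e
      · subst e; exact Or.inr ⟨b, by simp, hb.symm⟩
      · subst e; exact Or.inr ⟨l, by simp, hcl.symm⟩
      · subst e; exact Or.inl (by simp)
      · by_cases hcx : G.Adj l x
        · exact Or.inr ⟨l, by simp, hcx⟩
        · have := hB x e hcx
          subst this; exact Or.inl (by simp)
    · rintro x (rfl | rfl) y (rfl | rfl)
      · exact ir _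
      · exact hlb
      · exact fun e => hlb e.symm
      · exact ir _
  have s1 : Step G l {v, c} {v, l} := by
    refine ⟨by simp, ?_, ?_, ?_⟩
    · rintro (e | e)
      · exact hvl' e.symm
      · exact hcl' e.symm
    · rintro x (rfl | rfl) <;> simp
    · rintro x (rfl | rfl)
      · exact Or.inl (by simp)
      · exact Or.inr hcl.symm
  have s2 : Step G b {v, l} {l, b} := by
    refine ⟨by simp, ?_, ?_, ?_⟩
    · rintro (e | e)
      · exact hbv e
      · exact hbl e
    · rintro x (rfl | rfl) <;> simp
    · rintro x (rfl | rfl)
      · exact Or.inr hb.symm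
      · exact Or.inl (by simp)
  have s3 : Step G a {v, c} {c, a} := by
    refine ⟨by simp, ?_, ?_, ?_⟩
    · rintro (e | e)
      · exact hav e
      · exact hac e
    · rintro x (rfl | rfl) <;> simp
    · rintro x (rfl | rfl)
      · exact Or.inr ha.symm
      · exact Or.inl (by simp)
  have n1 : ({v, l} : Set V) ≠ {c, a} := by
    intro e
    have : v ∈ ({v, l} : Set V) := by simp
    rw [e] at this
    rcases this with r | r
    · exact hvc r
    · exact hav r.symm
  have n2 : ({v, c} : Set V) ≠ {l, b} := by
    intro e
    have : v ∈ ({v, c} : Set V) := by simp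
    rw [e] at this
    rcases this with r | r
    · exact hvl' r
    · exact hbv r.symm
  by_cases hab : a = b
  · subst hab
    have s4 : Step G l {c, a} {l, a} := by
      refine ⟨by simp, ?_, ?_, ?_⟩
      · rintro (e | e)
        · exact hcl' e.symm
        · exact hbl e.symm
      · rintro x (rfl | rfl) <;> simp
      · rintro x (rfl | rfl)
        · exact Or.inr hcl.symm
        · exact Or.inl (by simp)
    exact short4 dvc dvl dlb dca s1.ra s2.ra s4.ra' s3.ra' n2 n1
  · have hla : G.Adj l a := by
      by_contra hc
      exact hab (hB a ha hc)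
    have hcb : G.Adj c b := by
      by_contra hc
      exact hab (hA b hb hc).symm
    by_cases hadj : G.Adj a b
    · have dal : MD G ({a, l} : Set V) := by
        refine ⟨?_, ?_⟩
        · intro x
          rcases part x with e | e | e | e
          · subst e; exact Or.inr ⟨a, by simp, ha.symm⟩
          · subst e; exact Or.inr ⟨l, by simp, hcl.symm⟩
          · subst e; exact Or.inl (by simp)
          · by_cases hcx : G.Adj l x
            · exact Or.inr ⟨l, by simp, hcx⟩
            · have := hB x e hcx
              subst this; exact Or.inr ⟨a, by simp, hadj⟩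
        · rintro m (rfl | rfl)
          · refine ⟨v, Or.inr ha.symm, ?_⟩
            rintro m' (rfl | rfl) hm'
            · rfl
            · rcases hm' with r | r
              · exact absurd r hvl'
              · exact absurd r hlv
          · refine ⟨c, Or.inr hcl.symm, ?_⟩
            rintro m' (rfl | rfl) hm'
            · rcases hm' with r | r
              · exact absurd r.symm hac
              · exact absurd r.symm hca
            · rfl
      have s4 : Step G a {v, l} {a, l} := by
        refine ⟨by simp, ?_, ?_, ?_⟩
        · rintro (e | e)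
          · exact hav e
          · exact hal e
        · rintro x (rfl | rfl) <;> simp
        · rintro x (rfl | rfl)
          · exact Or.inr ha.symm
          · exact Or.inl (by simp)
      have s5 : Step G l {c, a} {a, l} := by
        refine ⟨by simp, ?_, ?_, ?_⟩
        · rintro (e | e)
          · exact hcl' e.symm
          · exact hal e.symm
        · rintro x (rfl | rfl) <;> simp
        · rintro x (rfl | rfl)
          · exact Or.inr hcl.symm
          · exact Or.inl (by simp)
      refine short4 dvc dvl dal dca s1.ra s4.ra s5.ra' s3.ra' ?_ n1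
      intro e
      have : v ∈ ({v, c} : Set V) := by simp
      rw [e] at this
      rcases this with r | r
      · exact hav r.symm
      · exact hvl' r
    · obtain ⟨Z, z1, z2, z3, z4⟩ := exists_mis G {x | G.Adj v x} {a, b}
        (by rintro x (rfl | rfl) <;> assumption)
        (by
          rintro x (rfl | rfl) y (rfl | rfl)
          · exact ir _
          · exact hadj
          · exact fun e => hadj e.symm
          · exact ir _)
      have aZ : a ∈ Z := z1 (by simp)
      have bZ : b ∈ Z := z1 (by simp)
      have dZ : MD G Z := by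
        apply MD.of_indep
        · intro x
          rcases part x with e | e | e | e
          · subst e; exact Or.inr ⟨a, aZ, ha.symm⟩
          · subst e; exact Or.inr ⟨b, bZ, hcb.symm⟩
          · subst e; exact Or.inr ⟨a, aZ, hla.symm⟩
          · exact z4 x e
        · exact z3
      have s4 : Step G l Z {l, b} := by
        refine ⟨by simp, fun e => hvl (z2 e), ?_, ?_⟩
        · rintro x (rfl | rfl)
          · exact Or.inl rfl
          · exact Or.inr bZ
        · intro x hx
          by_cases hxl : G.Adj l x
          · exact Or.inr hxl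
          · have := hB x (z2 hx) hxl
            subst this; exact Or.inl (by simp)
      have s5 : Step G c Z {c, a} := by
        refine ⟨by simp, fun e => hna (z2 e), ?_, ?_⟩
        · rintro x (rfl | rfl)
          · exact Or.inl rfl
          · exact Or.inr aZ
        · intro x hx
          by_cases hxl : G.Adj c x
          · exact Or.inr hxl
          · have := hA x (z2 hx) hxl
            subst this; exact Or.inl (by simp)
      exact short5 dvc dvl dlb dZ dca s1.ra s2.ra s4.ra' s5.ra s3.ra'

/-- either case 1 or case 2 applies to a frame with a trivial twin class and two leaves -/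
theorem frame2 [Finite V] (G : SimpleGraph V) (hns : ¬ StarLike G) (h : NS G) {v c : V}
    (F : Frame G v c)
    (hT : ∀ x, ¬ G.Adj v x → x ≠ c → ¬ G.Adj c x → x = v)
    {l1 l2 : V} (hl1 : G.Adj c l1) (hl1' : ¬ G.Adj v l1) (hl2 : G.Adj c l2)
    (hl2' : ¬ G.Adj v l2) (hne : l1 ≠ l2) : Short G := by
  by_cases hW : ∀ x, G.Adj v x → G.Adj c x
  · exact case1 G hns h F hW
  · push Not at hW
    obtain ⟨w, hw1, hw2⟩ := hW
    exact case2 G h F hT hl1 hl1' hl2 hl2' hne hw1 hw2

theorem main_step [Finite V] (G : SimpleGraph V) (hns : ¬ StarLike G) (h : NS G) : Short G := by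
  have ir : ∀ x, ¬ G.Adj x x := fun x => G.loopless.irrefl x
  by_cases hf : ∀ v x y, x ≠ v → ¬ G.Adj v x → y ≠ v → ¬ G.Adj v y → ¬ G.Adj x y
  · exact case0 G hns hf
  push Not at hf
  obtain ⟨v, x, y, hx1, hx2, hy1, hy2, hxy⟩ := hf
  have hframe : ∃ c, Frame G v c := by
    rcases h v with hv | ⟨c, hc⟩
    · exact absurd hxy (hv x y hx1 hx2 hy1 hy2)
    · rcases hc x y hx1 hx2 hy1 hy2 hxy with r | r
      · subst r
        exact ⟨x, Ne.symm hx1, hx2, ⟨y, hxy, hy2⟩, hc⟩
      · subst r
        exact ⟨y, Ne.symm hy1, hy2, ⟨x, hxy.symm, hx2⟩, hc⟩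
  obtain ⟨c, F⟩ := hframe
  by_cases hW : ∀ x, G.Adj v x → G.Adj c x
  · exact case1 G hns h F hW
  push Not at hW
  obtain ⟨w, hw1, hw2⟩ := hW
  have hcv : ¬ G.Adj c v := fun e => F.na e.symm
  have wc : ∀ w, G.Adj v w → w ≠ c := by rintro l hl rfl; exact F.na hl
  have wv : ∀ w, G.Adj v w → w ≠ v := by rintro l hl rfl; exact ir _ hl
  by_cases hT : ∀ x, ¬ G.Adj v x → x ≠ c → ¬ G.Adj c x → x = v
  · -- T = {v}
    obtain ⟨l, hl1, hl2⟩ := F.lf
    by_cases hL : ∃ l', G.Adj c l' ∧ ¬ G.Adj v l' ∧ l ≠ l'
    · obtain ⟨l', hl1', hl2', hne⟩ := hL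
      exact case2 G h F hT hl1 hl2 hl1' hl2' hne hw1 hw2
    push Not at hL
    have part : ∀ x, x = v ∨ x = c ∨ x = l ∨ G.Adj v x := by
      intro x
      by_cases h1 : G.Adj v x
      · exact Or.inr (Or.inr (Or.inr h1))
      by_cases h2 : G.Adj c x
      · exact Or.inr (Or.inr (Or.inl (hL x h2 h1).symm))
      by_cases h3 : x = c
      · exact Or.inr (Or.inl h3)
      exact Or.inl (hT x h1 h3 h2)
    have hvl : v ≠ l := by rintro rfl; exact hcv hl1
    have hlv : ¬ G.Adj l v := fun e => hl2 e.symm
    -- the symmetric frame (v, l)
    have F' : Frame G v l := by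
      refine ⟨hvl, hl2, ⟨c, hl1.symm, F.na⟩, ?_⟩
      intro x y h1 h2 h3 h4 h5
      rcases part x with e | e | e | e
      · exact absurd e h1
      · rcases part y with r | r | r | r
        · exact absurd r h3
        · subst e; subst r; exact absurd h5 (ir _)
        · exact Or.inr r
        · exact absurd r h4
      · exact Or.inl e
      · exact absurd e h2
    by_cases hW2 : ∀ x, G.Adj v x → G.Adj l x
    · exact case1 G hns h F' hW2
    push Not at hW2
    obtain ⟨b, hb1, hb2⟩ := hW2
    -- uniqueness of `a`
    by_cases hA : ∀ x, G.Adj v x → ¬ G.Adj c x → x = w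
    · by_cases hB : ∀ x, G.Adj v x → ¬ G.Adj l x → x = b
      · exact case3 G F.ne F.na hl1 hl2 part hw1 hw2 hA hb1 hb2 hB
      · push Not at hB
        obtain ⟨b', r1, r2, r3⟩ := hB
        have lb : ∀ w, G.Adj v w → w ≠ l := by rintro l hl rfl; exact hl2 hl
        have F2 : Frame G l v := by
          refine ⟨Ne.symm hvl, hlv, ⟨b, hb1, hb2⟩, ?_⟩
          intro x y h1 h2 h3 h4 h5
          rcases h l with hv | ⟨z, hz⟩
          · exact absurd h5 (hv x y h1 h2 h3 h4)
          · have e1 := hz v b hvl hlv (lb b hb1) hb2 hb1
            have e2 := hz v b' hvl hlv (lb b' r1) r2 r1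
            have : v = z := by
              rcases e1 with e1 | e1
              · exact e1
              · rcases e2 with e2 | e2
                · exact e2
                · exact absurd (e2.trans e1.symm) r3
            subst this
            exact hz x y h1 h2 h3 h4 h5
        refine frame2 G hns h F2 ?_ hb1 hb2 r1 r2 (Ne.symm r3)
        intro x h1 h2 h3
        rcases part x with e | e | e | e
        · exact absurd e h2
        · subst e; exact absurd hl1.symm h1
        · exact e
        · exact absurd e h3
    · push Not at hA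
      obtain ⟨w', r1, r2, r3⟩ := hA
      have F2 : Frame G c v := by
        refine ⟨Ne.symm F.ne, hcv, ⟨w, hw1, hw2⟩, ?_⟩
        intro x y h1 h2 h3 h4 h5
        rcases h c with hv | ⟨z, hz⟩
        · exact absurd h5 (hv x y h1 h2 h3 h4)
        · have e1 := hz v w F.ne hcv (wc w hw1) hw2 hw1
          have e2 := hz v w' F.ne hcv (wc w' r1) r2 r1
          have : v = z := by
            rcases e1 with e1 | e1
            · exact e1
            · rcases e2 with e2 | e2
              · exact e2
              · exact absurd (e2.trans e1.symm) r3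
          subst this
          exact hz x y h1 h2 h3 h4 h5
      refine frame2 G hns h F2 ?_ hw1 hw2 r1 r2 (Ne.symm r3)
      intro x h1 h2 h3
      rcases part x with e | e | e | e
      · exact absurd e h2
      · exact e
      · subst e; exact absurd hl1 h1
      · exact absurd e h3
  · push Not at hT
    obtain ⟨t, t1, t2, t3, t4⟩ := hT
    have tw : ∀ x, G.Adj t x ↔ G.Adj v x := fun x => F.twin h t1 t2 t3 x
    have twg : ∀ t, ¬ G.Adj v t → t ≠ c → ¬ G.Adj c t → ∀ x, G.Adj t x ↔ G.Adj v x :=
      fun t a b d x => F.twin h a b d x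
    have htw : G.Adj t w := (tw w).2 hw1
    have F2 : Frame G c w := by
      refine ⟨Ne.symm (wc w hw1), hw2, ⟨v, hw1.symm, hcv⟩, ?_⟩
      intro x y h1 h2 h3 h4 h5
      rcases h c with hv | ⟨z, hz⟩
      · exact absurd h5 (hv x y h1 h2 h3 h4)
      · have e1 := hz v w F.ne hcv (wc w hw1) hw2 hw1
        have e2 := hz t w t2 t3 (wc w hw1) hw2 htw
        have : w = z := by
          rcases e1 with e1 | e1
          · rcases e2 with e2 | e2
            · exact absurd (e2.trans e1.symm) t4
            · exact e2
          · exact e1
        subst this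
        exact hz x y h1 h2 h3 h4 h5
    refine frame2 G hns h F2 ?_ hw1.symm hcv htw.symm t3 (Ne.symm t4)
    intro x h1 h2 h3
    by_contra hxc
    -- x is in T or in W'
    by_cases hvx : G.Adj v x
    · -- v - x edge in H_c must contain w
      rcases F2.ctr v x F.ne hcv hxc h1 hvx with e | e
      · exact wv w hw1 e.symm
      · exact h2 e
    · exact h3 ((twg x hvx hxc h1 w).2 hw1).symm

end Pool.Agent.V11272.GR
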